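import Pool.Agent.R225.LP.Fin2
import Pool.Agent.R225.LP.AJ
import Pool.Agent.W703.GP.Fin4

set_option autoImplicit false

/-!
# Finite isospectral classes among all convex polygons

Let `P` be a convex polygon with `N ≥ 4` vertices, perimeter `L`, and least distance `d` between two
sides which are not adjacent, and suppose `L < (N + 1) d` (this is an open set of polygons up to
similarity, and `L = N d` for a regular polygon). If `P` does not belong to an exceptional set of
measure zero, then there are only finitely many convex polygons, with any number of vertices, up to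
congruence, which have the same Dirichlet spectrum as `P`, up to finitely many eigenvalues.

Proof: `L` and `d` are determined by the spectrum, and a convex polygon with `M ≥ 4` vertices has
`M d ≤ L`; so a convex polygon isospectral to `P` has at most `N` vertices. Among these there are
only finitely many by a result of the starting library.
-/

open MeasureTheory Set Filter Topology Complex
open Pool.Agent.W780.PG (IsConvexPolygon region)
open Pool.Agent.W703.GP (dirichletEigenvalue)

namespace Pool.Agent.Results.MP_4eed4e_an.AmongAllConvexPolygons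

/-- The least distance between two non-adjacent sides of the polygon with the vertices
`p 0, p 1, …` (its side number `i` is the segment from `p i` to `p (i + 1)`, indices modulo the
number of vertices). -/
noncomputable def leastDistance {n : ℕ} (p : Fin (n + 3) → ℂ) : ℝ :=
  sInf {r : ℝ | ∃ i j : Fin (n + 3), j ≠ i ∧ j ≠ i + 1 ∧ i ≠ j + 1 ∧
    ∃ x ∈ segment ℝ (p i) (p (i + 1)), ∃ y ∈ segment ℝ (p j) (p (j + 1)), r = dist x y}

/-- For almost every list `p` of `N = n + 4` points of the plane: if `p` lists the vertices of a
convex polygon `P` whose perimeter is less than `N + 1` times the least distance between two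
non-adjacent sides, then there is a finite set `C` of plane domains such that each convex polygon
(interior of the convex hull of a finite set `S`, if not empty) all but finitely many of whose
Dirichlet eigenvalues are the same as those of `P` is congruent to a member of `C`. -/
theorem result (n : ℕ) : ∀ᵐ p : Fin (n + 1 + 3) → ℂ, IsConvexPolygon p →
    ∑ i, ‖p (i + 1) - p i‖ < (n + 5) * leastDistance p →
    ∃ C : Set (Set ℂ), C.Finite ∧ ∀ S : Set ℂ, S.Finite → (interior (convexHull ℝ S)).Nonempty →
      (∀ᶠ k in Filter.atTop, dirichletEigenvalue (region p) k =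
        dirichletEigenvalue (interior (convexHull ℝ S)) k) →
      ∃ Q ∈ C, ∃ φ : ℂ ≃ᵢ ℂ, φ '' Q = interior (convexHull ℝ S) := by
  obtain ⟨G, -, h0, h1⟩ := Pool.Agent.W703.GP.open_full_measure (n + 1)
  have hae : ∀ᵐ p : Fin (n + 1 + 3) → ℂ, p ∉ {p | IsConvexPolygon p} \ G :=
    compl_mem_ae_iff.2 h0
  filter_upwards [hae] with p hpG hp hL
  have hmem : p ∈ G := by
    by_contra h
    exact hpG ⟨hp, h⟩
  obtain ⟨-, K, C, hC, h2⟩ := h1 p hmem
  refine ⟨C, hC, fun S hS hne h => ?_⟩
  replace h := Pool.Agent.R225.LP.almost_region hp hS hne h
  obtain ⟨m, q, hq, e⟩ := Pool.Agent.Y459.HI.vs S hS hne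
  rw [← e] at h ⊢
  obtain ⟨-, -, h3⟩ := Pool.Agent.R225.LP.least_distance p q hp hq h
  have hd : 0 < Pool.Agent.R225.LP.sd p := (Pool.Agent.R225.LP.nb n p hp).1
  have h4 : ((m : ℝ) + 3) * Pool.Agent.R225.LP.sd p < (n + 5) * Pool.Agent.R225.LP.sd p :=
    lt_of_le_of_lt h3 hL
  have h5 : (m : ℝ) + 3 < n + 5 := lt_of_mul_lt_mul_right h4 hd.le
  have h6 : m ≤ n + 1 := by
    have : (m : ℝ) < ((n + 2 : ℕ) : ℝ) := by push_cast; linarith
    have := Nat.cast_lt.1 this
    omega
  exact (h2 m h6 q hq fun k _ _ => h k).2.2

end Pool.Agent.Results.MP_4eed4e_an.AmongAllConvexPolygons
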